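import Pool.Agent.Helper5.KPA.StN

/-!
# Project KP, chapter A, module AGL: a graded algebra over a Noether normalization
-/

set_option autoImplicit false

namespace Pool.Agent.Helper9.KPA

open Pool.Agent.Helper5.KPA Pool.Agent.Helper52.KP MvPolynomial

theorem hAGL : StAGL := by
  intro S _ _ _ G hG e a hN
  have hac : ∀ (p : MvPolynomial (Fin (e + 1)) ℂ) (x : S), ac a p x = aeval a p * x :=
    fun p x => rfl
  have hX : ∀ i (x : S), ac a (X i) x = a i * x := fun i x => by rw [hac, aeval_X]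
  refine ⟨⟨hG.ind, fun k i x hx => ?_, hG.fd⟩, ⟨fun k => bot_le, fun k i x hx => ?_, ?_⟩, ?_, 0, ?_⟩
  · rw [hX, mul_comm]
    exact hG.mul k 1 _ _ hx (hN.mem i)
  · have h0 : x = 0 := (Submodule.mem_bot ℂ).1 hx
    rw [h0, map_zero]
    exact Submodule.zero_mem _
  · obtain ⟨D, hD⟩ := hN.fg
    refine ⟨D, fun k hk x hx => ?_⟩
    obtain ⟨y, hy, hxy⟩ := hD k hk x hx
    refine ⟨y, hy, ?_⟩
    have h0 : x - ∑ i, ac a (X i) (y i) = 0 := by
      rw [hxy, sub_eq_zero]
      exact Finset.sum_congr rfl fun i _ => (hX i (y i)).symm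
    rw [h0]
    exact Submodule.zero_mem _
  · intro p x hp _ h
    rw [hac] at h
    rcases mul_eq_zero.1 h with h | h
    · exact absurd ((map_eq_zero_iff (aeval a) hN.ai).1 h) hp
    · exact h
  · rw [hG.zero]
    intro h
    rw [Submodule.span_singleton_eq_bot] at h
    exact one_ne_zero h

end Pool.Agent.Helper9.KPA
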