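import Pool.Agent.Helper5.KPA.StD

/-!
# Project KP, chapter A, module ALA: a lattice and its dual lattice
-/

set_option autoImplicit false

namespace Pool.Agent.Helper9.KPA

open Pool.Agent.Helper5.KPA Pool.Agent.Helper52.KP MvPolynomial

private theorem ala_hp_nat {s n : ℕ} {p : MvPolynomial (Fin s) ℂ} :
    p ∈ hp s (n : ℤ) ↔ p.IsHomogeneous n := by
  rw [hp, if_pos (Int.natCast_nonneg n), Int.toNat_natCast, mem_homogeneousSubmodule]

private theorem ala_hp_neg {s : ℕ} {i : ℤ} (h : i < 0) {p : MvPolynomial (Fin s) ℂ}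
    (hp' : p ∈ hp s i) : p = 0 := by
  rw [hp, if_neg (not_le.2 h)] at hp'
  exact (Submodule.mem_bot _).1 hp'

private theorem ala_hp_mul {s : ℕ} {a b c : ℤ} {p q : MvPolynomial (Fin s) ℂ}
    (hp1 : p ∈ hp s a) (hq : q ∈ hp s b) (hc : a + b = c) : p * q ∈ hp s c := by
  subst hc
  rcases lt_or_ge a 0 with h | h
  · rw [ala_hp_neg h hp1, zero_mul]
    exact Submodule.zero_mem _
  rcases lt_or_ge b 0 with h' | h'
  · rw [ala_hp_neg h' hq, mul_zero]
    exact Submodule.zero_mem _
  lift a to ℕ using h
  lift b to ℕ using h'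
  rw [ala_hp_nat] at hp1 hq
  rw [← Nat.cast_add, ala_hp_nat]
  exact hp1.mul hq

private theorem ala_hp_X {s : ℕ} (l : Fin s) : (X l : MvPolynomial (Fin s) ℂ) ∈ hp s 1 := by
  have h := ala_hp_nat.2 (isHomogeneous_X ℂ l)
  simpa using h

/-- components of a product with a homogeneous factor -/
private theorem ala_comp_mul {s a : ℕ} (N : ℕ) (p q : MvPolynomial (Fin s) ℂ)
    (hq : q.IsHomogeneous a) :
    homogeneousComponent (N + a) (p * q) = homogeneousComponent N p * q := by
  classical
  have h : ∀ n, homogeneousComponent (N + a) (homogeneousComponent n p * q) =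
      if n = N then homogeneousComponent n p * q else 0 := by
    intro n
    rw [homogeneousComponent_of_mem ((homogeneousComponent_isHomogeneous n p).mul hq)]
    by_cases h1 : n = N
    · simp [h1]
    · rw [if_neg h1, if_neg (by omega)]
  conv_lhs => rw [← sum_homogeneousComponent p, Finset.sum_mul, map_sum]
  rw [Finset.sum_congr rfl fun n _ => h n, Finset.sum_ite_eq']
  split_ifs with h1
  · rfl
  · rw [homogeneousComponent_eq_zero N p (by simpa using h1), zero_mul]

/-- the part of the vector `ψ` of index `n` -/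
private noncomputable def alaT {s ρ : ℕ} (du : Fin ρ → ℕ) (n : ℕ)
    (ψ : Fin ρ → MvPolynomial (Fin s) ℂ) : Fin ρ → MvPolynomial (Fin s) ℂ :=
  fun i => homogeneousComponent (du i + n) (ψ i)

/-- a vector without components of small degree is the sum of its parts -/
private theorem ala_sum {s ρ b : ℕ} (du : Fin ρ → ℕ) (hb : ∀ i, du i ≤ b) (v : Fin s)
    (φ : Fin ρ → MvPolynomial (Fin s) ℂ) :
    ∃ N : ℕ, (X v ^ b : MvPolynomial (Fin s) ℂ) • φ =
      ∑ n ∈ Finset.range N, alaT du n ((X v ^ b : MvPolynomial (Fin s) ℂ) • φ) := by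
  classical
  refine ⟨(∑ i, ((X v ^ b : MvPolynomial (Fin s) ℂ) * φ i).totalDegree) + 1, ?_⟩
  funext i
  rw [Finset.sum_apply]
  show X v ^ b * φ i = ∑ n ∈ _, homogeneousComponent (du i + n) (X v ^ b * φ i)
  ext d
  rw [coeff_sum]
  by_cases h : coeff d (X v ^ b * φ i) = 0
  · rw [h]
    symm
    refine Finset.sum_eq_zero fun n _ => ?_
    rw [coeff_homogeneousComponent, h, ite_self]
  · have h1 : du i ≤ d.degree := by
      have h2 : Finsupp.single v b ≤ d := by
        by_contra h3
        apply h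
        rw [X_pow_eq_monomial, coeff_monomial_mul', if_neg h3]
      have h3 : b ≤ d v := by
        have := h2 v
        simpa using this
      exact (hb i).trans (h3.trans (Finsupp.le_degree v d))
    have h2 : d.degree ≤ (X v ^ b * φ i).totalDegree := le_totalDegree (mem_support_iff.2 h)
    have h3 : (X v ^ b * φ i).totalDegree ≤
        ∑ i, ((X v ^ b : MvPolynomial (Fin s) ℂ) * φ i).totalDegree :=
      Finset.single_le_sum (f := fun i => ((X v ^ b : MvPolynomial (Fin s) ℂ) * φ i).totalDegree)
        (fun _ _ => Nat.zero_le _) (Finset.mem_univ i)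
    rw [Finset.sum_eq_single (d.degree - du i)]
    · rw [coeff_homogeneousComponent, if_pos (by omega)]
    · intro n _ hn
      rw [coeff_homogeneousComponent, if_neg (by omega)]
    · intro hn
      exact absurd (Finset.mem_range.2 (by omega)) hn

theorem hALA (hALP : StALP) (hAEQ : StAEQ) : StALA := by
  classical
  intro e δ ρ he hδ hρ du f hf L hL1 hL2 hL3
  have hfh : f.IsHomogeneous δ := ala_hp_nat.1 hf.1
  -- the lattice
  obtain ⟨c, hc, hasy⟩ := hALP e δ ρ he hδ hρ (fun i => (δ : ℤ) - du i) f hf L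
    (fun k x hx i => by
      rw [show (k : ℤ) + ((δ : ℤ) - du i) = (k : ℤ) + δ - du i by ring]
      exact hL1 k x hx i) hL2
    (fun k p hp' => hL3 k p fun i => by
      have := hp' i
      rwa [show (k : ℤ) + ((δ : ℤ) - du i) - δ = (k : ℤ) - du i by ring] at this)
  -- the dual lattice
  have hD1 : ∀ k, ∀ x ∈ Lst f du L k, ∀ i, x i ∈ hp (e + 1) ((k : ℤ) + ((du i : ℤ) - (e + 1))) := by
    intro k x hx i
    have := hx.1 i
    rwa [show (du i : ℤ) + k - (e + 1) = (k : ℤ) + ((du i : ℤ) - (e + 1)) by ring] at this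
  have hD2 : ∀ k (l : Fin (e + 1)), ∀ x ∈ Lst f du L k,
      dg (e + 1) ρ (X l) x ∈ Lst f du L (k + 1) := by
    intro k l x hx
    refine ⟨fun i => ?_, fun j y hy => ?_⟩
    · show X l * x i ∈ _
      refine ala_hp_mul (ala_hp_X l) (hx.1 i) ?_
      push_cast
      ring
    · have h1 : ∑ i, dg (e + 1) ρ (X l) x i * y i = X l * ∑ i, x i * y i := by
        rw [Finset.mul_sum]
        refine Finset.sum_congr rfl fun i _ => ?_
        show X l * x i * y i = _
        ring
      rw [h1]
      exact (hx.2 j y hy).mul_left _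
  have hD3 : ∀ (k : ℕ) (p : Fin ρ → MvPolynomial (Fin (e + 1)) ℂ),
      (∀ i, p i ∈ hp (e + 1) ((k : ℤ) + ((du i : ℤ) - (e + 1)) - δ)) →
      f • p ∈ Lst f du L k := by
    intro k p hp'
    refine ⟨fun i => ?_, fun j y _ => ?_⟩
    · show f * p i ∈ _
      refine ala_hp_mul hf.1 (hp' i) ?_
      ring
    · refine ⟨∑ i, p i * y i, ?_⟩
      rw [Finset.mul_sum]
      refine Finset.sum_congr rfl fun i _ => ?_
      show f * p i * y i = _
      ring
  obtain ⟨c', hc', hasy'⟩ := hALP e δ ρ he hδ hρ (fun i => (du i : ℤ) - (e + 1)) f hf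
    (Lst f du L) hD1 hD2 hD3
  -- the submodule generated by `L`
  have hstab : ∀ (a : MvPolynomial (Fin (e + 1)) ℂ) (x : Fin ρ → MvPolynomial (Fin (e + 1)) ℂ),
      x ∈ (⨆ k, L k) → a • x ∈ (⨆ k, L k) := by
    intro a
    induction a using MvPolynomial.induction_on with
    | C r =>
      intro x hx
      have h1 : (C r : MvPolynomial (Fin (e + 1)) ℂ) • x = r • x := by
        funext i
        show C r * x i = r • x i
        rw [smul_eq_C_mul]
      rw [h1]
      exact Submodule.smul_mem _ _ hx
    | add p q hp' hq =>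
      intro x hx
      rw [add_smul]
      exact add_mem (hp' x hx) (hq x hx)
    | mul_X p l hp' =>
      intro x hx
      rw [mul_smul]
      apply hp'
      refine Submodule.iSup_induction L
        (motive := fun x => (X l : MvPolynomial (Fin (e + 1)) ℂ) • x ∈ ⨆ k, L k) hx ?_ ?_ ?_
      · intro k y hy
        exact Submodule.mem_iSup_of_mem (k + 1) (hL2 k l y hy)
      · rw [smul_zero]
        exact Submodule.zero_mem _
      · intro y z hy hz
        rw [smul_add]
        exact add_mem hy hz
  let Lt : Submodule (MvPolynomial (Fin (e + 1)) ℂ) (Fin ρ → MvPolynomial (Fin (e + 1)) ℂ) :=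
    { carrier := {x | x ∈ (⨆ k, L k)}
      add_mem' := fun hx hy => (⨆ k, L k).add_mem hx hy
      zero_mem' := (⨆ k, L k).zero_mem
      smul_mem' := fun a x hx => hstab a x hx }
  have hLt : ∀ x, x ∈ Lt ↔ x ∈ (⨆ k, L k) := fun x => Iff.rfl
  have hfL : ∀ x : Fin ρ → MvPolynomial (Fin (e + 1)) ℂ, f • x ∈ Lt := by
    intro x
    have h1 : f • x = ∑ i, x i • (f • (Pi.single i 1 : Fin ρ → MvPolynomial (Fin (e + 1)) ℂ)) := by
      funext j
      rw [Finset.sum_apply, Finset.sum_eq_single j]
      · show f * x j = x j * (f * (Pi.single j 1 : Fin ρ → MvPolynomial (Fin (e + 1)) ℂ) j)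
        rw [Pi.single_eq_same]
        ring
      · intro i _ hi
        show x i * (f * (Pi.single i 1 : Fin ρ → MvPolynomial (Fin (e + 1)) ℂ) j) = 0
        rw [Pi.single_eq_of_ne hi.symm]
        ring
      · intro h
        exact absurd (Finset.mem_univ j) h
    rw [h1]
    refine Submodule.sum_mem _ fun i _ => Submodule.smul_mem _ _ ?_
    rw [hLt]
    refine Submodule.mem_iSup_of_mem (du i) (hL3 (du i) _ fun j => ?_)
    by_cases hj : j = i
    · subst hj
      rw [Pi.single_eq_same, sub_self]
      exact_mod_cast ala_hp_nat.2 (isHomogeneous_one (Fin (e + 1)) ℂ)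
    · rw [Pi.single_eq_of_ne hj]
      exact Submodule.zero_mem _
  -- ranks
  have hM1 : Mx f (Lt : Set (Fin ρ → MvPolynomial (Fin (e + 1)) ℂ)) c := by
    obtain ⟨t, g, hg, ht, hind, hgen⟩ := hc
    refine ⟨t, g, hg, fun j => ?_, hind, fun x hx => ?_⟩
    · obtain ⟨k, hk⟩ := Set.mem_iUnion.1 (ht j)
      exact Submodule.mem_iSup_of_mem (p := L) k hk
    · refine Submodule.iSup_induction L (motive := fun x =>
        ∃ (α : Fin c → MvPolynomial (Fin e) ℂ) (y : Fin ρ → MvPolynomial (Fin (e + 1)) ℂ),
          up g • x = ∑ j, up (α j) • t j + f • y) hx ?_ ?_ ?_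
      · intro k y hy
        exact hgen y (Set.mem_iUnion.2 ⟨k, hy⟩)
      · exact ⟨0, 0, by simp⟩
      · rintro y z ⟨α, y', h1⟩ ⟨β, z', h2⟩
        refine ⟨α + β, y' + z', ?_⟩
        have h3 : ∑ j, up ((α + β) j) • t j = ∑ j, up (α j) • t j + ∑ j, up (β j) • t j := by
          rw [← Finset.sum_add_distrib]
          refine Finset.sum_congr rfl fun j _ => ?_
          rw [Pi.add_apply, up, map_add, add_smul]
        rw [smul_add, h1, h2, h3, smul_add]
        abel
  have hM2 : Mx f {φ : Fin ρ → MvPolynomial (Fin (e + 1)) ℂ | ∀ x ∈ Lt, f ∣ ∑ i, φ i * x i} c' := by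
    obtain ⟨t, g, hg, ht, hind, hgen⟩ := hc'
    set b : ℕ := ∑ i, du i with hb
    have hbi : ∀ i, du i ≤ b := fun i =>
      Finset.single_le_sum (fun _ _ => Nat.zero_le _) (Finset.mem_univ i)
    let v : Fin e := ⟨0, he⟩
    refine ⟨t, g * X v ^ b, mul_ne_zero hg (pow_ne_zero _ (X_ne_zero v)), fun j => ?_, hind,
      fun φ hφ => ?_⟩
    · obtain ⟨k, hk⟩ := Set.mem_iUnion.1 (ht j)
      intro x hx
      refine Submodule.iSup_induction L (motive := fun x => f ∣ ∑ i, t j i * x i) hx ?_ ?_ ?_
      · intro k' y hy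
        exact hk.2 k' y hy
      · simp
      · intro y z hy hz
        simp only [Pi.add_apply, mul_add, Finset.sum_add_distrib]
        exact dvd_add hy hz
    · set ψ : Fin ρ → MvPolynomial (Fin (e + 1)) ℂ :=
        (X v.succ ^ b : MvPolynomial (Fin (e + 1)) ℂ) • φ with hψ
      have hψd : ∀ x ∈ Lt, f ∣ ∑ i, ψ i * x i := by
        intro x hx
        have h1 : ∑ i, ψ i * x i = X v.succ ^ b * ∑ i, φ i * x i := by
          rw [Finset.mul_sum]
          refine Finset.sum_congr rfl fun i _ => ?_
          show X v.succ ^ b * φ i * x i = _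
          ring
        rw [h1]
        exact (hφ x hx).mul_left _
      -- the parts are in the dual lattice
      have hpart : ∀ n, alaT du n ψ ∈ Lst f du L (n + (e + 1)) := by
        intro n
        refine ⟨fun i => ?_, fun j x hx => ?_⟩
        · have h1 : ((du i : ℤ) + ((n + (e + 1) : ℕ) : ℤ) - (e + 1)) = ((du i + n : ℕ) : ℤ) := by
            push_cast
            ring
          rw [h1, ala_hp_nat]
          exact homogeneousComponent_isHomogeneous _ _
        · obtain ⟨q, hq⟩ := hψd x ((hLt x).2 (Submodule.mem_iSup_of_mem j hx))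
          have h1 : ∑ i, alaT du n ψ i * x i =
              homogeneousComponent ((n + j) + δ) (∑ i, ψ i * x i) := by
            rw [map_sum]
            refine Finset.sum_congr rfl fun i _ => ?_
            have h2 := hL1 j x hx i
            rcases lt_or_ge ((j : ℤ) + δ - du i) 0 with h3 | h3
            · rw [ala_hp_neg h3 h2, mul_zero, mul_zero, map_zero]
            · obtain ⟨a, ha⟩ := Int.eq_ofNat_of_zero_le h3
              rw [ha, ala_hp_nat] at h2
              have h4 : (n + j) + δ = (du i + n) + a := by omega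
              rw [h4, ala_comp_mul _ _ _ h2]
              rfl
          rw [h1, hq, mul_comm f q, ala_comp_mul _ _ _ hfh]
          exact Dvd.intro_left _ rfl
      obtain ⟨N, hN⟩ := ala_sum du hbi v.succ φ
      rw [← hψ] at hN
      choose α y hαy using fun n => hgen (alaT du n ψ) (Set.mem_iUnion.2 ⟨_, hpart n⟩)
      refine ⟨∑ n ∈ Finset.range N, α n, ∑ n ∈ Finset.range N, y n, ?_⟩
      have h1 : up (g * X v ^ b) • φ = up g • ψ := by
        rw [hψ, smul_smul, up, up, map_mul, map_pow, rename_X]
      rw [h1, hN, Finset.smul_sum, Finset.sum_congr rfl fun n _ => hαy n, Finset.sum_add_distrib,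
        Finset.sum_comm, Finset.smul_sum]
      congr 1
      refine Finset.sum_congr rfl fun j _ => ?_
      rw [Finset.sum_apply, up, map_sum, Finset.sum_smul]
  have hcc := hAEQ e ρ δ f hδ hf Lt hfL c c' hM1 hM2
  have hcc' : (c : ℝ) + c' = ρ * δ := by exact_mod_cast hcc
  refine ⟨_, _, ?_, hasy, ?_⟩
  · have : (0 : ℝ) < ρ := by exact_mod_cast hρ
    positivity
  · convert hasy' using 1
    rw [← neg_div]
    congr 1
    push_cast
    simp only [Finset.sum_add_distrib, Finset.sum_sub_distrib, Finset.sum_const, Finset.card_univ,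
      Fintype.card_fin, nsmul_eq_mul]
    linear_combination (-1 : ℝ) * hcc'

end Pool.Agent.Helper9.KPA
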